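import Pool.Agent.Work.MP_7084a3_h91.Basic
import Pool.Agent.Work.MP_7084a3_h91.InterfaceF
import Pool.Agent.Work.MP_7084a3_h91.InterfaceX

set_option autoImplicit false

/-! # Lemmas shared by the blocks X2 and X3 -/

namespace Pool.HA.H90

variable {G S : Type} [Group G] {g : S → G}

/-- permutations of vertices, pairs and triples -/
def P0 (g : S → G) : G →* Equiv.Perm (Vtx g) := MulAction.toPermHom G (Vtx g)
def P1 (g : S → G) : G →* Equiv.Perm (Vtx g × Vtx g) := MulAction.toPermHom G (Vtx g × Vtx g)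
def P2 (g : S → G) : G →* Equiv.Perm (Vtx g × Vtx g × Vtx g) :=
  MulAction.toPermHom G (Vtx g × Vtx g × Vtx g)

theorem P0_apply (y : G) (v : Vtx g) : P0 g y v = y • v := rfl
theorem P1_apply (y : G) (v : Vtx g × Vtx g) : P1 g y v = y • v := rfl
theorem P2_apply (y : G) (v : Vtx g × Vtx g × Vtx g) : P2 g y v = y • v := rfl

theorem mv_P0 (y : G) (D : C0 g) : mv (P0 g y) D = act0 y D := rfl
theorem mv_P1 (y : G) (D : C1 g) : mv (P1 g y) D = act1 y D := rfl
theorem mv_P2 (y : G) (D : C2 g) : mv (P2 g y) D = act2 y D := rfl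

/-- sum of coefficients -/
noncomputable def tot (g : S → G) : C0 g →+ ℤ :=
  Finsupp.liftAddHom (fun _ => AddMonoidHom.id ℤ)

theorem tot_single (v : Vtx g) (a : ℤ) : tot g (Finsupp.single v a) = a := by
  simp [tot]

theorem tot_bd1 (E : C1 g) : tot g (bd1 g E) = 0 := by
  have h : (tot g).comp (bd1 g) = 0 := by
    apply Finsupp.addHom_ext
    intro p a
    simp [bd1, tot_single, AddMonoidHom.flip_apply, smulAddHom_apply, map_sub]
  exact DFunLike.congr_fun h E

theorem no_inv (hZPER : Stmt_ZPER) (c : G)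
    (hc : ∀ k : ℕ, 0 < k → ∀ v : Vtx g, c ^ k • v ≠ v) (E : C1 g) (p : Vtx g)
    (h : act0 c (bd1 g E + Finsupp.single p 1) = bd1 g E + Finsupp.single p 1) : False := by
  have h1 := hZPER (Vtx g) (P0 g c) (bd1 g E + Finsupp.single p 1) h
  have h2 : bd1 g E + Finsupp.single p 1 = 0 := by
    rw [← Finsupp.support_eq_empty, Finset.eq_empty_iff_forall_notMem]
    intro v hv
    obtain ⟨k, hk, e⟩ := h1 v hv
    rw [← map_pow, P0_apply] at e
    exact hc k hk v e
  have h3 := congrArg (tot g) h2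
  rw [map_add, tot_bd1, tot_single, map_zero] at h3
  norm_num at h3

/-- a walk from `p` to `c p` is not `E - c E` modulo boundaries -/
theorem no_E (hZPER : Stmt_ZPER) (hBD1 : Stmt_BD1) (hACT : Stmt_ACT) (c : G)
    (hc : ∀ k : ℕ, 0 < k → ∀ v : Vtx g, c ^ k • v ≠ v) (l : List (Vtx g)) (p : Vtx g)
    (hl : Wk l p (c • p)) (Q : C2 g) (hQ : Flagged Q) (E : C1 g)
    (h : wch l - bd2 g Q = E - act1 c E) : False := by
  obtain ⟨b1, b2⟩ := hBD1 G S g
  obtain ⟨-, a2, -⟩ := hACT G S g
  apply no_inv hZPER c hc E p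
  have h1 := congrArg (bd1 g) h
  rw [map_sub, map_sub, b1 l p _ hl, b2 Q hQ, a2, sub_zero] at h1
  rw [map_add]
  have h2 : act0 c (Finsupp.single p (1 : ℤ) : C0 g) = Finsupp.single (c • p) 1 := by
    simp [act0]
  rw [h2]
  have h3 : (Finsupp.single (c • p) (1 : ℤ) : C0 g) =
      bd1 g E - act0 c (bd1 g E) + Finsupp.single p 1 := by
    rw [← h1]; abel
  rw [h3]; abel

theorem flagged_of_orbit {D P : C2 g} (hD : Flagged D)
    (h : ∀ t ∈ P.support, ∃ y : G, y • t ∈ D.support) : Flagged P := by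
  intro t ht
  obtain ⟨y, hy⟩ := h t ht
  obtain ⟨a1, a2, a3, a4, a5, a6⟩ := hD _ hy
  have e : ∀ v w : Vtx g, (y • v).ad (y • w) → v.ad w := by
    intro v w hvw
    have := Vtx.ad_smul y⁻¹ hvw
    rwa [inv_smul_smul, inv_smul_smul] at this
  exact ⟨a1, a2, a3, e _ _ a4, e _ _ a5, e _ _ a6⟩

/-- telescoping -/
theorem tele (hACT : Stmt_ACT) (x : G) (A : C1 g) (n : ℕ) :
    ∑ j ∈ Finset.range n, act1 (x ^ j) (A - act1 x A) = A - act1 (x ^ n) A := by
  obtain ⟨-, -, -, -, a5, -, -, a8, -⟩ := hACT G S g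
  induction n with
  | zero => simp [a8]
  | succ n ih =>
    rw [Finset.sum_range_succ, ih, map_sub, ← a5, ← pow_succ]
    abel

/-- the chain of a closed walk which bounds, with few flags missing -/
theorem fill_chain (hBD : Stmt_BD) (hWCH : Stmt_WCH) {C : ℕ}
    (hC : ∀ P : List (Vtx g × Bool), P ≠ [] → CW Vtx.ad (P.map Prod.fst) → RFlag P →
      2 ≤ nns P ∧ ∃ D n, Fill Vtx.ad TT (P.map Prod.fst) D n ∧ n ≤ C * (nns P - 2))
    (P Q : List (Vtx g)) (v w : Vtx g) (hP : Wk P v w) (hQ : Wk Q v w)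
    (L : List (Vtx g × Bool)) (hL : L.map Prod.fst = P.dropLast ++ Q.reverse.dropLast)
    (hF : RFlag L) :
    ∃ D : C2 g, Flagged D ∧ bd2 g D = wch P - wch Q ∧ nrm D ≤ C * nns L := by
  obtain ⟨-, -, w3, -, -⟩ := hWCH G S g
  obtain ⟨c1, c2⟩ := w3 P Q v w hP hQ
  rw [← hL] at c1 c2
  by_cases hL0 : L = []
  · subst hL0
    refine ⟨0, fun t ht => by simp at ht, ?_, by simp [nrm, nf]⟩
    rw [map_zero, ← c2]; rfl
  · obtain ⟨h2, D, n, hD, hn⟩ := hC L hL0 c1 hF
    obtain ⟨d1, d2, d3⟩ := hBD G S g _ _ _ hD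
    refine ⟨D, d2, d1.trans c2, d3.trans (hn.trans ?_)⟩
    exact Nat.mul_le_mul_left _ (Nat.sub_le _ _)

theorem wch_support {l : List (Vtx g)} {t : Vtx g × Vtx g} (ht : t ∈ (wch l).support) :
    t.1 ∈ l ∧ t.2 ∈ l ∧ t.1.ty < t.2.ty := by
  classical
  induction l with
  | nil => simp [wch] at ht
  | cons x l ih =>
    cases l with
    | nil => simp [wch] at ht
    | cons y l =>
      rw [wch] at ht
      have h1 := Finsupp.support_add ht
      rw [Finset.mem_union] at h1
      rcases h1 with h1 | h1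
      · have h2 := Finsupp.support_sub h1
        rw [Finset.mem_union] at h2
        unfold dl1 at h2
        rcases h2 with h2 | h2
        · split_ifs at h2 with h3
          · have h4 := Finsupp.support_single_subset h2
            rw [Finset.mem_singleton] at h4
            subst h4
            simp [h3]
          · simp at h2
        · split_ifs at h2 with h3
          · have h4 := Finsupp.support_single_subset h2
            rw [Finset.mem_singleton] at h4
            subst h4
            simp [h3]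
          · simp at h2
      · obtain ⟨a, b, c⟩ := ih h1
        exact ⟨List.mem_cons_of_mem _ a, List.mem_cons_of_mem _ b, c⟩

end Pool.HA.H90
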